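import Pool.Agent.H606.GU.Stm

/-! TASK VN of project GU (helper606): the number variance is `o(M)`. -/

open MeasureTheory Filter Topology Finset
open Pool.Agent.H606.GU

namespace Pool.Agent.H168.GU.VN

lemma rho_integrableOn (hRHO : S_RHO) {A : Set (Fin 2 → ℝ)} (hb : Bornology.IsBounded A) :
    IntegrableOn (rho : (Fin 2 → ℝ) → ℝ) A := by
  have hc : Continuous (rho : (Fin 2 → ℝ) → ℝ) := hRHO.1 (Fin 2)
  have h1 : IntegrableOn (rho : (Fin 2 → ℝ) → ℝ) (closure A) :=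
    hc.continuousOn.integrableOn_compact hb.isCompact_closure
  exact h1.mono_set subset_closure

lemma tile_eq (a : ℝ) (ha : 0 < a) (M : ℕ) (hM : 1 ≤ M) :
    tile 2 (M * a) 0 = ⋃ p ∈ range M ×ˢ range M, mix 1 a p.1 p.2 := by
  have hM0 : (0 : ℝ) < M := by exact_mod_cast hM
  ext y
  simp only [tile, mix, Set.mem_ofPred_eq, Set.mem_iUnion, Finset.mem_product, Finset.mem_range,
    Nat.cast_zero, zero_mul, zero_add, one_mul, exists_prop, Prod.exists]
  constructor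
  · intro h
    have key : ∀ z : ℝ, 0 ≤ z → z < M * a → ∃ i : ℕ, i < M ∧ (i : ℝ) * a ≤ z ∧
        z < ((i : ℝ) + 1) * a := by
      intro z hz0 hz1
      refine ⟨⌊z / a⌋₊, ?_, ?_, ?_⟩
      · rw [Nat.floor_lt (by positivity)]
        rwa [div_lt_iff₀ ha]
      · have := Nat.floor_le (show 0 ≤ z / a by positivity)
        rwa [le_div_iff₀ ha] at this
      · have := Nat.lt_floor_add_one (z / a)
        rwa [div_lt_iff₀ ha] at this
    obtain ⟨i, hi, hi1, hi2⟩ := key (y 0) (h 0).1 (h 0).2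
    obtain ⟨j, hj, hj1, hj2⟩ := key (y 1) (h 1).1 (h 1).2
    refine ⟨i, j, ⟨hi, hj⟩, ?_, ?_⟩
    · intro l
      have : l = 0 := Subsingleton.elim _ _
      subst this
      exact ⟨hi1, hi2⟩
    · exact ⟨hj1, hj2⟩
  · rintro ⟨i, j, ⟨hi, hj⟩, h1, h2⟩ l
    have hi' : ((i : ℝ) + 1) ≤ M := by exact_mod_cast hi
    have hj' : ((j : ℝ) + 1) ≤ M := by exact_mod_cast hj
    have h10 := h1 0
    fin_cases l
    · refine ⟨le_trans (by positivity) h10.1, lt_of_lt_of_le h10.2 ?_⟩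
      exact mul_le_mul_of_nonneg_right hi' ha.le
    · refine ⟨le_trans (by positivity) h2.1, lt_of_lt_of_le h2.2 ?_⟩
      exact mul_le_mul_of_nonneg_right hj' ha.le

lemma mix_disj (a : ℝ) (ha : 0 < a) (M : ℕ) :
    Set.Pairwise (↑(range M ×ˢ range M) : Set (ℕ × ℕ))
      (Function.onFun Disjoint fun p : ℕ × ℕ => mix 1 a p.1 p.2) := by
  intro p _ q _ hpq
  rw [Function.onFun, Set.disjoint_left]
  intro y hy1 hy2
  apply hpq
  have key : ∀ (i j : ℕ) (z : ℝ), (i : ℝ) * a ≤ z → z < ((i : ℝ) + 1) * a → (j : ℝ) * a ≤ z →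
      z < ((j : ℝ) + 1) * a → i = j := by
    intro i j z h1 h2 h3 h4
    have h5 : (i : ℝ) * a < ((j : ℝ) + 1) * a := lt_of_le_of_lt h1 h4
    have h6 : (j : ℝ) * a < ((i : ℝ) + 1) * a := lt_of_le_of_lt h3 h2
    have h7 : (i : ℝ) < (j : ℝ) + 1 := lt_of_mul_lt_mul_right h5 ha.le
    have h8 : (j : ℝ) < (i : ℝ) + 1 := lt_of_mul_lt_mul_right h6 ha.le
    have h9 : i < j + 1 := by exact_mod_cast h7
    have h10 : j < i + 1 := by exact_mod_cast h8
    omega
  have e1 := key p.1 q.1 _ (hy1.1 0).1 (hy1.1 0).2 (hy2.1 0).1 (hy2.1 0).2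
  have e2 := key p.2 q.2 _ hy1.2.1 hy1.2.2 hy2.2.1 hy2.2.2
  exact Prod.ext e1 e2

lemma mm_two (hINT : S_INT) (hSETS : S_SETS) (hRHO : S_RHO) (a : ℝ) (ha : 0 < a) (M : ℕ)
    (hM : 1 ≤ M) : mm 2 (M * a) = (M : ℝ) ^ 2 * a ^ 2 - M * a + tl 1 a M := by
  have h6 := (hINT 1 a le_rfl ha).2.2.2.2.2 M
  have h1 := (hINT 1 a le_rfl ha).2.1
  rw [h1] at h6
  have hE : mm 2 (M * a) = ∑ i ∈ range M, ∑ i' ∈ range M, ∫ y in mix 1 a i i', rho y := by
    unfold mm
    rw [tile_eq a ha M hM]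
    rw [integral_biUnion_finset (range M ×ˢ range M)
      (fun p _ => ((hSETS 1 a le_rfl ha).2.1 p.1 p.2).1) (mix_disj a ha M)
      (fun p _ => rho_integrableOn hRHO ((hSETS 1 a le_rfl ha).2.1 p.1 p.2).2.1)]
    rw [Finset.sum_product]
  rw [hE, h6]
  push_cast
  ring

theorem t_VN (hAV : S_AV) (hTC : S_TC) (hINT : S_INT) (hUPC : S_UPC) (hSETS : S_SETS)
    (hRHO : S_RHO) (hTAIL : S_TAIL) : S_VN := by
  intro C hUp a ha η hη
  have hT := hTAIL 1 a le_rfl ha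
  have hev : ∀ᶠ M : ℕ in atTop, tl 1 a M / M < η / 2 :=
    hT.eventually (gt_mem_nhds (by positivity))
  obtain ⟨M1, hM1⟩ := eventually_atTop.1 hev
  refine ⟨max M1 1, fun M hM => ?_⟩
  have hM1' : M1 ≤ M := le_trans (le_max_left _ _) hM
  have hM2 : 1 ≤ M := le_trans (le_max_right _ _) hM
  have hM0 : (0 : ℝ) < M := by exact_mod_cast hM2
  have htl : tl 1 a M ≤ η / 2 * M := by
    have := (hM1 M hM1').le
    rwa [div_le_iff₀ hM0] at this
  set L : ℝ := (M : ℝ) * a with hL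
  have hLpos : 0 < L := by positivity
  have hmm : mm 2 L = L ^ 2 - L + tl 1 a M := by
    rw [hL, mm_two hINT hSETS hRHO a ha M hM2]; ring
  -- the upper bound of the average
  have hsets := (hSETS 2 L (by norm_num) hLpos).1 0
  have hup := hUPC C (Fin 2) 1 zero_le_one hUp (tile 2 L 0) hsets.1 hsets.2.1 hsets.2.2
    (η * M / 8) (by positivity)
  -- limits
  have hlim : Tendsto (fun T => L * ((C.N T : ℝ) / C.R T) - 2 * L ^ 2 * ((C.N T : ℝ) / C.R T) +
      L ^ 2 + L ^ 3 * (C.R T)⁻¹) atTop (𝓝 (L * 1 - 2 * L ^ 2 * 1 + L ^ 2 + L ^ 3 * 0)) := by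
    refine ((((C.hN.const_mul L).sub (C.hN.const_mul (2 * L ^ 2))).add_const (L ^ 2))).add ?_
    exact (C.hR.inv_tendsto_atTop).const_mul (L ^ 3)
  have hev2 := hlim.eventually (gt_mem_nhds
    (show L * 1 - 2 * L ^ 2 * 1 + L ^ 2 + L ^ 3 * 0 < L - L ^ 2 + η * M / 8 by
      have : 0 < η * M / 8 := by positivity
      nlinarith))
  have hRpos : ∀ᶠ T in atTop, 0 < C.R T := C.hR.eventually_gt_atTop 0
  filter_upwards [hup, hev2, hRpos] with T h1 h2 hR
  -- the computation at `T`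
  have hTCa := hTC (C.N T) (C.x T) a ha
  have hTCL := hTC (C.N T) (C.x T) L hLpos
  have hNN : ∀ t, NN (C.x T) a M t = (tc (C.x T) L 0 t : ℝ) := fun t => by
    have := hTCa.2.2.2.2.2.2.2.2 M t
    rw [this]
  simp only [hNN]
  have hmeas : Measurable (fun t => (tc (C.x T) L 0 t : ℝ)) := hTCL.2.2.2.2.1 0
  have hbd : ∀ t, (tc (C.x T) L 0 t : ℝ) ≤ C.N T := fun t => by
    exact_mod_cast hTCL.2.2.2.2.2.2.1 0 t
  have hzero : ∀ t, t ∉ Set.Icc (-L) (C.R T) → tc (C.x T) L 0 t = 0 := fun t ht => by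
    have := hTCL.2.2.2.2.2.1 1 (C.R T) (C.hx T) 0 (by norm_num) t
    simp only [Nat.cast_one, one_mul] at this
    exact this ht
  have hint1 : ∫ t : ℝ, (tc (C.x T) L 0 t : ℝ) = C.N T * L := hTCL.2.2.2.2.2.2.2.1 0
  have hcnt : ∀ t, ((tc (C.x T) L 0 t).descFactorial 2 : ℝ) = (cnt (C.x T) (tile 2 L 0) t : ℝ) := by
    intro t
    have := hTCL.1 2 0 t
    exact_mod_cast this
  have hsq : ∀ t, (tc (C.x T) L 0 t : ℝ) ^ 2 =
      (tc (C.x T) L 0 t : ℝ) + (cnt (C.x T) (tile 2 L 0) t : ℝ) := by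
    intro t
    rw [← hcnt t]
    have h3 : (tc (C.x T) L 0 t) ^ 2 = tc (C.x T) L 0 t + (tc (C.x T) L 0 t).descFactorial 2 := by
      rcases Nat.eq_zero_or_pos (tc (C.x T) L 0 t) with h0 | h0
      · rw [h0]; rfl
      · obtain ⟨m, hm⟩ := Nat.exists_eq_succ_of_ne_zero h0.ne'
        rw [hm]
        simp [Nat.descFactorial_succ]
        ring
    exact_mod_cast h3
  have hcint : Integrable (fun t => (cnt (C.x T) (tile 2 L 0) t : ℝ)) :=
    (hAV (Fin 2) (C.N T) (C.x T) (C.R T) hR).1 (tile 2 L 0) hsets.1 hsets.2.1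
  set I := Set.Icc (-L) (C.R T) with hI
  have hIfin : volume I < ⊤ := by rw [hI]; exact measure_Icc_lt_top
  have hvol : (volume I).toReal = C.R T + L := by
    rw [hI, Real.volume_Icc, ENNReal.toReal_ofReal (by linarith)]; ring
  have htcI : IntegrableOn (fun t => (tc (C.x T) L 0 t : ℝ)) I := by
    refine Measure.integrableOn_of_bounded (M := (C.N T : ℝ)) hIfin.ne
      hmeas.aestronglyMeasurable ?_
    refine Filter.Eventually.of_forall fun t => ?_
    rw [Real.norm_eq_abs, abs_of_nonneg (Nat.cast_nonneg _)]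
    exact hbd t
  have hcI : IntegrableOn (fun t => (cnt (C.x T) (tile 2 L 0) t : ℝ)) I := hcint.integrableOn
  have hset1 : ∫ t in I, (tc (C.x T) L 0 t : ℝ) = C.N T * L := by
    rw [← hint1]
    refine setIntegral_eq_integral_of_forall_compl_eq_zero fun t ht => ?_
    rw [hzero t ht]; simp
  have hset2 : ∫ t in I, (cnt (C.x T) (tile 2 L 0) t : ℝ) =
      ∫ t, (cnt (C.x T) (tile 2 L 0) t : ℝ) := by
    refine setIntegral_eq_integral_of_forall_compl_eq_zero fun t ht => ?_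
    rw [← hcnt t, hzero t ht]; simp
  have hexp : ∀ t, ((tc (C.x T) L 0 t : ℝ) - M * a) ^ 2 =
      (cnt (C.x T) (tile 2 L 0) t : ℝ) + (1 - 2 * L) * (tc (C.x T) L 0 t : ℝ) + L ^ 2 := by
    intro t
    have := hsq t
    rw [← hL]
    linear_combination this
  have hmain : ∫ t in I, ((tc (C.x T) L 0 t : ℝ) - M * a) ^ 2 =
      (∫ t, (cnt (C.x T) (tile 2 L 0) t : ℝ)) + (1 - 2 * L) * (C.N T * L) +
        L ^ 2 * (C.R T + L) := by
    simp only [hexp]
    have hg : IntegrableOn (fun t => (1 - 2 * L) * (tc (C.x T) L 0 t : ℝ)) I :=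
      htcI.const_mul (1 - 2 * L)
    have hfg : IntegrableOn (fun t => (cnt (C.x T) (tile 2 L 0) t : ℝ) +
        (1 - 2 * L) * (tc (C.x T) L 0 t : ℝ)) I := hcI.add hg
    have hc0 : IntegrableOn (fun _ : ℝ => L ^ 2) I := integrableOn_const hIfin.ne
    rw [integral_add hfg hc0, integral_add hcI hg, integral_const_mul, hset1, hset2,
      setIntegral_const, Measure.real, hvol, smul_eq_mul]
    ring
  rw [hmain]
  have hAvdef : (∫ t, (cnt (C.x T) (tile 2 L 0) t : ℝ)) / C.R T = Av (C.x T) (C.R T) (tile 2 L 0) :=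
    rfl
  have hmm' : (∫ y in tile 2 L 0, rho y) = mm 2 L := rfl
  rw [hmm', hmm, one_mul] at h1
  have hsplit : ((∫ t, (cnt (C.x T) (tile 2 L 0) t : ℝ)) + (1 - 2 * L) * (C.N T * L) +
        L ^ 2 * (C.R T + L)) / C.R T = Av (C.x T) (C.R T) (tile 2 L 0) +
        (L * ((C.N T : ℝ) / C.R T) - 2 * L ^ 2 * ((C.N T : ℝ) / C.R T) +
      L ^ 2 + L ^ 3 * (C.R T)⁻¹) := by
    rw [← hAvdef]
    field_simp
    ring
  rw [hsplit]
  have h2' := le_of_lt h2
  nlinarith [mul_pos hη hM0]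

end Pool.Agent.H168.GU.VN
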